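import Mathlib

/-!
# The maximum size of concept classes of given no-clash teaching dimension

Upper bounds by averaging over the sets of `r` points, lower bounds by a Pascal type recursion and
by products.
-/

set_option autoImplicit false

namespace Pool.Agent.Results.MP_4dbef5_lc.NoClashBounds

open Finset

/-- `T` is an NC-teacher (no-clash teacher) for the concept class `𝒞`. -/
def IsNCTeacher {n : ℕ} (𝒞 : Finset (Finset (Fin n))) (T : Finset (Fin n) → Finset (Fin n)) :
    Prop :=
  ∀ C ∈ 𝒞, ∀ C' ∈ 𝒞, C ≠ C' → ∃ x ∈ T C ∪ T C', ¬ (x ∈ C ↔ x ∈ C')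

/-- The NC-teaching dimension of `𝒞`: the minimum over the NC-teachers `T` of the maximum of
`|T(C)|` over the concepts `C` of `𝒞`. -/
noncomputable def NCTD {n : ℕ} (𝒞 : Finset (Finset (Fin n))) : ℕ :=
  sInf {m : ℕ | ∃ T, IsNCTeacher 𝒞 T ∧ m = 𝒞.sup fun C => (T C).card}

/-- `M_NC(n, d)`: the largest cardinality of a concept class over `n` points of NC-teaching
dimension exactly `d`. -/
noncomputable def MNC (n d : ℕ) : ℕ :=
  sSup {k : ℕ | ∃ 𝒞 : Finset (Finset (Fin n)), NCTD 𝒞 = d ∧ 𝒞.card = k}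

/-! ### Families -/

/-- Indexed families of concepts with sets of size at most `d` assigned to them without a clash. -/
def Fam (α ι : Type) [DecidableEq α] (d : ℕ) : Prop :=
  ∃ (c : ι → α → Bool) (t : ι → Finset α),
    (∀ i j, i ≠ j → ∃ x ∈ t i ∪ t j, c i x ≠ c j x) ∧ ∀ i, (t i).card ≤ d

lemma Fam.mono {α ι : Type} [DecidableEq α] {d e : ℕ} (h : Fam α ι d) (hde : d ≤ e) :
    Fam α ι e := by
  obtain ⟨c, t, h1, h2⟩ := h
  exact ⟨c, t, h1, fun i => (h2 i).trans hde⟩

lemma Fam.comp {α ι κ : Type} [DecidableEq α] {d : ℕ} (h : Fam α ι d) (f : κ → ι)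
    (hf : Function.Injective f) : Fam α κ d := by
  obtain ⟨c, t, h1, h2⟩ := h
  exact ⟨c ∘ f, t ∘ f, fun i j hij => h1 _ _ (fun he => hij (hf he)), fun i => h2 _⟩

lemma Fam.congr {α β ι : Type} [DecidableEq α] [DecidableEq β] {d : ℕ} (h : Fam α ι d)
    (e : α ≃ β) : Fam β ι d := by
  obtain ⟨c, t, h1, h2⟩ := h
  refine ⟨fun i y => c i (e.symm y), fun i => (t i).map e.toEmbedding, ?_, ?_⟩
  · intro i j hij
    obtain ⟨x, hx, hne⟩ := h1 i j hij
    refine ⟨e x, ?_, by simpa using hne⟩
    rw [← Finset.map_union]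
    exact Finset.mem_map.2 ⟨x, hx, rfl⟩
  · intro i
    simpa using h2 i

/-- The full cube. -/
lemma fam_cube (n : ℕ) : Fam (Fin n) (Fin n → Bool) ((n + 1) / 2) := by
  classical
  -- the point taught in the pair of index `i`
  let τ : (Fin n → Bool) → ℕ → ℕ := fun c i =>
    if h : 2 * i + 1 < n then
      (if c ⟨2 * i, by omega⟩ = c ⟨2 * i + 1, h⟩ then 2 * i else 2 * i + 1) else 2 * i
  have hτ : ∀ c i, τ c i = 2 * i ∨ τ c i = 2 * i + 1 := by
    intro c i
    by_cases h : 2 * i + 1 < n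
    · by_cases h2 : c ⟨2 * i, by omega⟩ = c ⟨2 * i + 1, h⟩
      · left; simp [τ, h, h2]
      · right; simp [τ, h, h2]
    · left; simp [τ, h]
  refine ⟨fun c => c, fun c => univ.filter fun x : Fin n => τ c (x.1 / 2) = x.1, ?_, ?_⟩
  · intro c c' hcc
    obtain ⟨x, hx⟩ := Function.ne_iff.1 hcc
    by_cases h : 2 * (x.1 / 2) + 1 < n
    · by_cases h0 : c ⟨2 * (x.1 / 2), by omega⟩ = c' ⟨2 * (x.1 / 2), by omega⟩
      · -- differ at the second point of the pair
        have hx1 : x.1 = 2 * (x.1 / 2) + 1 := by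
          rcases Nat.even_or_odd' x.1 with ⟨k, hk | hk⟩
          · exfalso
            apply hx
            have : (⟨2 * (x.1 / 2), by omega⟩ : Fin n) = x := by
              apply Fin.ext
              simp only
              omega
            rw [this] at h0
            exact h0
          · omega
        have hx2 : (⟨2 * (x.1 / 2) + 1, h⟩ : Fin n) = x := Fin.ext hx1.symm
        refine ⟨x, ?_, hx⟩
        simp only [mem_union, mem_filter, mem_univ, true_and]
        by_contra hcon
        push Not at hcon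
        have e1 : τ c (x.1 / 2) = 2 * (x.1 / 2) := by
          rcases hτ c (x.1 / 2) with h1 | h1
          · exact h1
          · exact absurd (h1.trans hx1.symm) hcon.1
        have e2 : τ c' (x.1 / 2) = 2 * (x.1 / 2) := by
          rcases hτ c' (x.1 / 2) with h1 | h1
          · exact h1
          · exact absurd (h1.trans hx1.symm) hcon.2
        have f1 : c ⟨2 * (x.1 / 2), by omega⟩ = c x := by
          by_contra hne
          have : τ c (x.1 / 2) = 2 * (x.1 / 2) + 1 := by
            simp only [τ, h, dif_pos]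
            rw [hx2]
            simp [hne]
          omega
        have f2 : c' ⟨2 * (x.1 / 2), by omega⟩ = c' x := by
          by_contra hne
          have : τ c' (x.1 / 2) = 2 * (x.1 / 2) + 1 := by
            simp only [τ, h, dif_pos]
            rw [hx2]
            simp [hne]
          omega
        exact hx (f1.symm.trans (h0.trans f2))
      · -- differ at the first point of the pair
        by_cases hT : τ c (x.1 / 2) = 2 * (x.1 / 2) ∨ τ c' (x.1 / 2) = 2 * (x.1 / 2)
        · refine ⟨⟨2 * (x.1 / 2), by omega⟩, ?_, h0⟩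
          simp only [mem_union, mem_filter, mem_univ, true_and]
          have : 2 * (x.1 / 2) / 2 = x.1 / 2 := by omega
          rw [this]
          exact hT
        · push Not at hT
          have e1 : τ c (x.1 / 2) = 2 * (x.1 / 2) + 1 := (hτ c _).resolve_left hT.1
          have f1 : c ⟨2 * (x.1 / 2), by omega⟩ ≠ c ⟨2 * (x.1 / 2) + 1, h⟩ := by
            intro he
            apply hT.1
            simp [τ, h, he]
          have f2 : c' ⟨2 * (x.1 / 2), by omega⟩ ≠ c' ⟨2 * (x.1 / 2) + 1, h⟩ := by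
            intro he
            apply hT.2
            simp [τ, h, he]
          refine ⟨⟨2 * (x.1 / 2) + 1, h⟩, ?_, ?_⟩
          · simp only [mem_union, mem_filter, mem_univ, true_and]
            left
            have : (2 * (x.1 / 2) + 1) / 2 = x.1 / 2 := by omega
            rw [this]
            exact e1
          · intro he
            have he' : c ⟨2 * (x.1 / 2) + 1, h⟩ = c' ⟨2 * (x.1 / 2) + 1, h⟩ := he
            revert h0 f1 f2
            rw [he']
            generalize c ⟨2 * (x.1 / 2), _⟩ = a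
            generalize c' ⟨2 * (x.1 / 2), _⟩ = b
            generalize c' ⟨2 * (x.1 / 2) + 1, h⟩ = e
            cases a <;> cases b <;> cases e <;> simp
    · -- the pair has one point only
      have hx1 : 2 * (x.1 / 2) = x.1 := by have := x.2; omega
      refine ⟨x, ?_, hx⟩
      simp only [mem_union, mem_filter, mem_univ, true_and]
      left
      simp only [τ, h, dif_neg, not_false_eq_true]
      exact hx1
  · intro c
    have : (univ.filter fun x : Fin n => τ c (x.1 / 2) = x.1).card ≤ (range ((n + 1) / 2)).card := by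
      refine card_le_card_of_injOn (fun x => x.1 / 2) ?_ ?_
      · intro x hx
        have := x.2
        simp only [coe_range, Set.mem_Iio]
        omega
      · intro x hx y hy hxy
        simp only [coe_filter, mem_univ, true_and, Set.mem_ofPred_eq] at hx hy
        simp only at hxy
        apply Fin.ext
        rw [← hx, ← hy, hxy]
    simpa using this

/-- Order one: `2 n` concepts. -/
lemma fam_one (n : ℕ) : Fam (Fin n) (Fin n × Bool) 1 := by
  refine ⟨fun p y => if y ≤ p.1 then p.2 else !p.2, fun p => {p.1}, ?_, fun i => by simp⟩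
  rintro ⟨x, a⟩ ⟨y, b⟩ hne
  rcases lt_trichotomy x y with h | h | h
  · by_cases hab : a = b
    · refine ⟨y, by simp, ?_⟩
      subst hab
      simp [not_le.2 h]
    · refine ⟨x, by simp, ?_⟩
      simp [h.le, hab]
  · subst h
    refine ⟨x, by simp, ?_⟩
    simp only [le_refl, if_true]
    intro hab
    exact hne (by rw [hab])
  · by_cases hab : a = b
    · refine ⟨x, by simp, ?_⟩
      subst hab
      simp [not_le.2 h]
    · refine ⟨y, by simp, ?_⟩
      simp [h.le, hab]

/-- The Pascal type recursion. -/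
lemma fam_rec {α ι κ : Type} [DecidableEq α] {d : ℕ} (h1 : Fam α ι (d + 1)) (h2 : Fam α κ d) :
    Fam (Option α) (ι ⊕ κ) (d + 1) := by
  obtain ⟨c, t, hc, ht⟩ := h1
  obtain ⟨c', t', hc', ht'⟩ := h2
  refine ⟨fun i => Sum.elim (fun i o => o.elim false (c i)) (fun k o => o.elim true (c' k)) i,
    fun i => Sum.elim (fun i => (t i).map Function.Embedding.some)
      (fun k => insert none ((t' k).map Function.Embedding.some)) i, ?_, ?_⟩
  · rintro (i | i) (j | j) hij
    · obtain ⟨x, hx, hne⟩ := hc i j (fun he => hij (by rw [he]))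
      refine ⟨some x, ?_, by simpa using hne⟩
      simpa using hx
    · exact ⟨none, by simp, by simp⟩
    · exact ⟨none, by simp, by simp⟩
    · obtain ⟨x, hx, hne⟩ := hc' i j (fun he => hij (by rw [he]))
      refine ⟨some x, ?_, by simpa using hne⟩
      simpa using hx
  · rintro (i | i)
    · simpa using ht i
    · simp only [Sum.elim_inr]
      refine (card_insert_le _ _).trans ?_
      simpa using ht' i

/-- Products. -/
lemma fam_prod {α β ι κ : Type} [DecidableEq α] [DecidableEq β] {d e : ℕ} (h1 : Fam α ι d)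
    (h2 : Fam β κ e) : Fam (α ⊕ β) (ι × κ) (d + e) := by
  obtain ⟨c, t, hc, ht⟩ := h1
  obtain ⟨c', t', hc', ht'⟩ := h2
  refine ⟨fun p x => Sum.elim (c p.1) (c' p.2) x, fun p => (t p.1).disjSum (t' p.2), ?_, ?_⟩
  · rintro ⟨i, k⟩ ⟨j, l⟩ hne
    by_cases hij : i = j
    · subst hij
      obtain ⟨x, hx, hd⟩ := hc' k l (fun he => hne (by rw [he]))
      refine ⟨Sum.inr x, ?_, by simpa using hd⟩
      simpa using hx
    · obtain ⟨x, hx, hd⟩ := hc i j hij
      refine ⟨Sum.inl x, ?_, by simpa using hd⟩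
      simpa using hx
  · rintro ⟨i, k⟩
    rw [card_disjSum]
    exact add_le_add (ht i) (ht' k)

/-- The averaging bound. -/
lemma fam_upper {α ι : Type} [DecidableEq α] [Fintype α] [Fintype ι] {d r : ℕ}
    (h : Fam α ι d) (hdr : d ≤ r) (hr : r ≤ Fintype.card α) :
    Fintype.card ι * r.choose d ≤ 2 ^ r * (Fintype.card α).choose d := by
  classical
  obtain ⟨c, t0, hc0, ht0⟩ := h
  have hex : ∀ i, ∃ s : Finset α, t0 i ⊆ s ∧ s.card = d := by
    intro i
    obtain ⟨s, h1, h2⟩ := Finset.exists_superset_card_eq (ht0 i) (hdr.trans hr)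
    exact ⟨s, h1, h2⟩
  choose t ht htd using hex
  have hc : ∀ i j, i ≠ j → ∃ x ∈ t i ∪ t j, c i x ≠ c j x := by
    intro i j hij
    obtain ⟨x, hx, hne⟩ := hc0 i j hij
    refine ⟨x, ?_, hne⟩
    rw [mem_union] at hx ⊢
    exact hx.imp (fun h => ht i h) (fun h => ht j h)
  set n := Fintype.card α with hn
  -- double counting
  have key : Fintype.card ι * (n - d).choose (r - d) ≤ n.choose r * 2 ^ r := by
    have h1 : ∑ i : ι, ((powersetCard r (univ : Finset α)).filter fun R => t i ⊆ R).card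
        = ∑ R ∈ powersetCard r (univ : Finset α), (univ.filter fun i : ι => t i ⊆ R).card := by
      simp_rw [card_filter]
      rw [sum_comm]
    have h2 : ∀ i : ι, ((powersetCard r (univ : Finset α)).filter fun R => t i ⊆ R).card
        = (n - d).choose (r - d) := by
      intro i
      have : ((powersetCard r (univ : Finset α)).filter fun R => t i ⊆ R)
          = (powersetCard (r - d) (univ \ t i)).image fun S => S ∪ t i := by
        ext R
        simp only [mem_filter, mem_powersetCard, subset_univ, true_and, mem_image]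
        constructor
        · rintro ⟨hR, hs⟩
          refine ⟨R \ t i, ⟨sdiff_subset_sdiff (subset_univ _) le_rfl, ?_⟩, ?_⟩
          · rw [card_sdiff_of_subset hs, hR, htd i]
          · exact sdiff_union_of_subset hs
        · rintro ⟨S, ⟨hS, hcard⟩, rfl⟩
          refine ⟨?_, subset_union_right⟩
          rw [card_union_of_disjoint, hcard, htd i]
          · omega
          · exact disjoint_of_subset_left hS sdiff_disjoint
      rw [this, card_image_of_injOn, card_powersetCard, card_sdiff_of_subset (subset_univ _), htd i,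
        card_univ]
      intro S hS S' hS' he
      rw [mem_coe, mem_powersetCard] at hS hS'
      have e1 : S = (S ∪ t i) \ t i := by
        rw [union_sdiff_right, sdiff_eq_self_of_disjoint]
        exact disjoint_of_subset_left hS.1 sdiff_disjoint
      have e2 : S' = (S' ∪ t i) \ t i := by
        rw [union_sdiff_right, sdiff_eq_self_of_disjoint]
        exact disjoint_of_subset_left hS'.1 sdiff_disjoint
      simp only at he
      rw [e1, e2, he]
    have h3 : ∀ R ∈ powersetCard r (univ : Finset α),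
        (univ.filter fun i : ι => t i ⊆ R).card ≤ 2 ^ r := by
      intro R hR
      rw [mem_powersetCard] at hR
      have : (univ.filter fun i : ι => t i ⊆ R).card ≤ (univ : Finset (R → Bool)).card := by
        refine card_le_card_of_injOn (fun i => fun x : R => c i x.1) (by simp) ?_
        intro i hi j hj he
        simp only [coe_filter, mem_univ, true_and, Set.mem_ofPred_eq] at hi hj
        by_contra hij
        obtain ⟨x, hx, hne⟩ := hc i j hij
        have hxR : x ∈ R := by
          rw [mem_union] at hx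
          exact hx.elim (fun h => hi h) (fun h => hj h)
        exact hne (congrFun he ⟨x, hxR⟩)
      simpa [hR.2] using this
    calc Fintype.card ι * (n - d).choose (r - d)
        = ∑ i : ι, ((powersetCard r (univ : Finset α)).filter fun R => t i ⊆ R).card := by
          rw [sum_congr rfl fun i _ => h2 i]; simp
      _ = ∑ R ∈ powersetCard r (univ : Finset α), (univ.filter fun i : ι => t i ⊆ R).card := h1
      _ ≤ ∑ R ∈ powersetCard r (univ : Finset α), 2 ^ r := sum_le_sum h3
      _ = n.choose r * 2 ^ r := by simp [card_powersetCard, hn]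
  have hmul : n.choose r * r.choose d = n.choose d * (n - d).choose (r - d) :=
    Nat.choose_mul hdr
  have hpos : 0 < (n - d).choose (r - d) := Nat.choose_pos (by omega)
  refine Nat.le_of_mul_le_mul_right ?_ hpos
  calc Fintype.card ι * r.choose d * (n - d).choose (r - d)
      = (Fintype.card ι * (n - d).choose (r - d)) * r.choose d := by ring
    _ ≤ (n.choose r * 2 ^ r) * r.choose d := Nat.mul_le_mul_right _ key
    _ = 2 ^ r * (n.choose r * r.choose d) := by ring
    _ = 2 ^ r * n.choose d * (n - d).choose (r - d) := by rw [hmul]; ring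

/-! ### Classes and families -/

lemma teacher_set_nonempty {n : ℕ} (𝒞 : Finset (Finset (Fin n))) :
    {m : ℕ | ∃ T, IsNCTeacher 𝒞 T ∧ m = 𝒞.sup fun C => (T C).card}.Nonempty := by
  have h : IsNCTeacher 𝒞 (fun _ => univ) := by
    intro C _ C' _ hne
    by_contra hcon
    push Not at hcon
    exact hne (Finset.ext fun x => hcon x (by simp))
  exact ⟨_, _, h, rfl⟩

lemma exists_teacher {n : ℕ} (𝒞 : Finset (Finset (Fin n))) :
    ∃ T, IsNCTeacher 𝒞 T ∧ ∀ C ∈ 𝒞, (T C).card ≤ NCTD 𝒞 := by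
  obtain ⟨T, hT, hm⟩ := Nat.sInf_mem (teacher_set_nonempty 𝒞)
  refine ⟨T, hT, fun C hC => ?_⟩
  have h1 : (T C).card ≤ 𝒞.sup fun C => (T C).card :=
    Finset.le_sup (f := fun C => (T C).card) hC
  unfold NCTD
  rw [hm]
  exact h1

lemma nctd_le {n : ℕ} {𝒞 : Finset (Finset (Fin n))} {T : Finset (Fin n) → Finset (Fin n)} {d : ℕ}
    (hT : IsNCTeacher 𝒞 T) (h : ∀ C ∈ 𝒞, (T C).card ≤ d) : NCTD 𝒞 ≤ d := by
  have h1 : (𝒞.sup fun C => (T C).card) ∈
      {m : ℕ | ∃ T, IsNCTeacher 𝒞 T ∧ m = 𝒞.sup fun C => (T C).card} := ⟨T, hT, rfl⟩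
  exact (Nat.sInf_le h1).trans (Finset.sup_le h)

lemma nctd_mono {n : ℕ} {𝒞 𝒟 : Finset (Finset (Fin n))} (h : 𝒞 ⊆ 𝒟) : NCTD 𝒞 ≤ NCTD 𝒟 := by
  obtain ⟨T, hT, hc⟩ := exists_teacher 𝒟
  exact nctd_le (T := T) (fun C hC C' hC' => hT C (h hC) C' (h hC')) fun C hC => hc C (h hC)

lemma nctd_insert {n : ℕ} (𝒞 : Finset (Finset (Fin n))) (D : Finset (Fin n)) :
    NCTD (insert D 𝒞) ≤ NCTD 𝒞 + 1 := by
  classical
  obtain ⟨T, hT, hc⟩ := exists_teacher 𝒞
  have hx : ∀ C : Finset (Fin n), C ≠ D → ∃ x : Fin n, ¬ (x ∈ C ↔ x ∈ D) := by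
    intro C hC
    by_contra hcon
    push Not at hcon
    exact hC (Finset.ext hcon)
  choose x hx using hx
  refine nctd_le (T := fun C => if h : C = D then ∅ else insert (x C h) (T C)) ?_ ?_
  · intro C hC C' hC' hne
    by_cases h1 : C = D
    · subst h1
      have h2 : C' ≠ C := fun h => hne h.symm
      refine ⟨x C' h2, by simp [h2], ?_⟩
      have := hx C' h2
      tauto
    · by_cases h2 : C' = D
      · subst h2
        exact ⟨x C h1, by simp [h1], hx C h1⟩
      · have hC1 : C ∈ 𝒞 := (mem_insert.1 hC).resolve_left h1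
        have hC2 : C' ∈ 𝒞 := (mem_insert.1 hC').resolve_left h2
        obtain ⟨y, hy, hyn⟩ := hT C hC1 C' hC2 hne
        refine ⟨y, ?_, hyn⟩
        simp only [h1, h2, dif_neg, not_false_eq_true, mem_union, mem_insert]
        rw [mem_union] at hy
        tauto
  · intro C hC
    by_cases h1 : C = D
    · simp [h1]
    · have hC1 : C ∈ 𝒞 := (mem_insert.1 hC).resolve_left h1
      simp only [h1, dif_neg, not_false_eq_true]
      exact (card_insert_le _ _).trans (Nat.add_le_add_right (hc C hC1) 1)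

lemma fam_of_class {n d : ℕ} {𝒞 : Finset (Finset (Fin n))} (h : NCTD 𝒞 ≤ d) :
    Fam (Fin n) {C // C ∈ 𝒞} d := by
  classical
  obtain ⟨T, hT, hc⟩ := exists_teacher 𝒞
  refine ⟨fun C x => decide (x ∈ C.1), fun C => T C.1, ?_, fun C => (hc _ C.2).trans h⟩
  intro C C' hne
  obtain ⟨x, hx, hn⟩ := hT C.1 C.2 C'.1 C'.2 (fun he => hne (Subtype.ext he))
  refine ⟨x, hx, ?_⟩
  simpa using hn

lemma class_of_fam {n d : ℕ} {ι : Type} [Fintype ι] (h : Fam (Fin n) ι d) :
    ∃ 𝒞 : Finset (Finset (Fin n)), NCTD 𝒞 ≤ d ∧ 𝒞.card = Fintype.card ι := by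
  classical
  obtain ⟨c, t, hc, ht⟩ := h
  let S : ι → Finset (Fin n) := fun i => univ.filter fun x => c i x = true
  have hS : ∀ i x, x ∈ S i ↔ c i x = true := fun i x => by simp [S]
  have hinj : Function.Injective S := by
    intro i j hij
    by_contra hne
    obtain ⟨x, -, hx⟩ := hc i j hne
    apply hx
    have h1 := hS i x
    rw [hij, hS j x] at h1
    exact (Bool.eq_iff_iff.2 h1).symm
  refine ⟨univ.image S, ?_, by rw [card_image_of_injective _ hinj, card_univ]⟩
  rcases isEmpty_or_nonempty ι with he | hne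
  · have : univ.image S = ∅ := by simp
    rw [this]
    exact nctd_le (T := fun _ => ∅) (fun C hC => by simp at hC) (fun C hC => by simp at hC)
  · refine nctd_le (T := fun C => t (Function.invFun S C)) ?_ fun C _ => ht _
    intro C hC C' hC' hCC
    obtain ⟨i, -, rfl⟩ := mem_image.1 hC
    obtain ⟨j, -, rfl⟩ := mem_image.1 hC'
    have hij : i ≠ j := fun h => hCC (by rw [h])
    obtain ⟨x, hx, hn⟩ := hc i j hij
    refine ⟨x, ?_, ?_⟩
    · simpa [Function.leftInverse_invFun hinj i, Function.leftInverse_invFun hinj j] using hx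
    · rw [hS, hS]
      intro h
      exact hn (Bool.eq_iff_iff.2 h)

lemma choose_le_aux (d m : ℕ) (h : 2 * d ≤ m) :
    2 ^ (2 * d) * m.choose d ≤ 2 ^ m * (2 * d).choose d ∧
      (m + 1).choose d < 2 * m.choose d := by
  have step : ∀ k, 2 * d ≤ k → (k + 1).choose d < 2 * k.choose d := by
    intro k hk
    have h1 : k.choose d * (k + 1) = (k + 1).choose d * (k + 1 - d) := Nat.choose_mul_succ_eq k d
    have h2 : 0 < k.choose d := Nat.choose_pos (by omega)
    have h3 : 0 < k + 1 - d := by omega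
    refine Nat.lt_of_mul_lt_mul_right (a := k + 1 - d) ?_
    rw [← h1]
    have h4 : k + 1 < 2 * (k + 1 - d) := by omega
    calc k.choose d * (k + 1) < k.choose d * (2 * (k + 1 - d)) := Nat.mul_lt_mul_of_pos_left h4 h2
      _ = 2 * k.choose d * (k + 1 - d) := by ring
  refine ⟨?_, step m h⟩
  induction m, h using Nat.le_induction with
  | base => rfl
  | succ k hk ih =>
    have := step k hk
    calc 2 ^ (2 * d) * (k + 1).choose d ≤ 2 ^ (2 * d) * (2 * k.choose d) :=
          Nat.mul_le_mul_left _ this.le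
      _ = 2 * (2 ^ (2 * d) * k.choose d) := by ring
      _ ≤ 2 * (2 ^ k * (2 * d).choose d) := Nat.mul_le_mul_left _ ih
      _ = 2 ^ (k + 1) * (2 * d).choose d := by ring

lemma nctd_univ (n : ℕ) : NCTD (univ : Finset (Finset (Fin n))) = (n + 1) / 2 := by
  classical
  apply le_antisymm
  · obtain ⟨𝒞, h1, h2⟩ := class_of_fam (fam_cube n)
    have : 𝒞 = univ := by
      rw [← Finset.card_eq_iff_eq_univ, h2]
      simp
    rw [← this]
    exact h1
  · by_contra hlt
    push Not at hlt
    set d := NCTD (univ : Finset (Finset (Fin n))) with hd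
    have hdn : 2 * d + 1 ≤ n := by omega
    have h1 := fam_upper (r := 2 * d) (fam_of_class (le_refl (NCTD (univ : Finset (Finset (Fin n))))))
      (by rw [← hd]; omega) (by simp; omega)
    rw [← hd] at h1
    have h2 : Fintype.card {C : Finset (Fin n) // C ∈ (univ : Finset (Finset (Fin n)))} = 2 ^ n := by
      simp
    rw [h2, Fintype.card_fin] at h1
    obtain ⟨m, rfl⟩ : ∃ m, n = m + 1 := ⟨n - 1, by omega⟩
    obtain ⟨h3, h4⟩ := choose_le_aux d m (by omega)
    have h5 : 2 ^ (2 * d) * (m + 1).choose d < 2 ^ (m + 1) * (2 * d).choose d := by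
      calc 2 ^ (2 * d) * (m + 1).choose d < 2 ^ (2 * d) * (2 * m.choose d) :=
            Nat.mul_lt_mul_of_pos_left h4 (by positivity)
        _ = 2 * (2 ^ (2 * d) * m.choose d) := by ring
        _ ≤ 2 * (2 ^ m * (2 * d).choose d) := Nat.mul_le_mul_left _ h3
        _ = 2 ^ (m + 1) * (2 * d).choose d := by ring
    omega

lemma exact_superset {n d : ℕ} (hd : 2 * d ≤ n + 1) :
    ∀ (k : ℕ) (𝒞 : Finset (Finset (Fin n))), (univ \ 𝒞).card = k → NCTD 𝒞 ≤ d →
      ∃ 𝒟, 𝒞 ⊆ 𝒟 ∧ NCTD 𝒟 = d := by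
  classical
  intro k
  induction k with
  | zero =>
    intro 𝒞 hk h
    have : 𝒞 = univ := by
      rw [card_eq_zero, sdiff_eq_empty_iff_subset] at hk
      exact univ_subset_iff.1 hk
    refine ⟨𝒞, Subset.rfl, ?_⟩
    rw [this, nctd_univ] at h ⊢
    omega
  | succ k ih =>
    intro 𝒞 hk h
    rcases h.eq_or_lt with he | hlt
    · exact ⟨𝒞, Subset.rfl, he⟩
    · have hne : (univ \ 𝒞).Nonempty := by
        rw [← card_pos]; omega
      obtain ⟨D, hD⟩ := hne
      have hD' : D ∉ 𝒞 := (mem_sdiff.1 hD).2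
      have h1 : NCTD (insert D 𝒞) ≤ d := (nctd_insert 𝒞 D).trans hlt
      have h2 : (univ \ insert D 𝒞).card = k := by
        have : univ \ insert D 𝒞 = (univ \ 𝒞).erase D := by
          ext E; simp [not_or]
        rw [this, card_erase_of_mem hD, hk]
        rfl
      obtain ⟨𝒟, h3, h4⟩ := ih _ h2 h1
      exact ⟨𝒟, (subset_insert _ _).trans h3, h4⟩

lemma exists_iff (n d : ℕ) :
    (∃ 𝒞 : Finset (Finset (Fin n)), NCTD 𝒞 = d) ↔ 2 * d ≤ n + 1 := by
  constructor
  · rintro ⟨𝒞, rfl⟩
    have := nctd_mono (subset_univ 𝒞)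
    rw [nctd_univ] at this
    omega
  · intro h
    obtain ⟨𝒟, -, h2⟩ := exact_superset h _ (∅ : Finset (Finset (Fin n))) rfl
      (nctd_le (T := fun _ => ∅) (fun C hC => by simp at hC) (fun C hC => by simp at hC))
    exact ⟨𝒟, h2⟩

/-! ### The number `MNC n d` -/

lemma bdd (n d : ℕ) :
    BddAbove {k : ℕ | ∃ 𝒞 : Finset (Finset (Fin n)), NCTD 𝒞 = d ∧ 𝒞.card = k} := by
  refine ⟨2 ^ n, ?_⟩
  rintro k ⟨𝒞, -, rfl⟩
  simpa using card_le_univ 𝒞

lemma le_MNC {n d : ℕ} {ι : Type} [Fintype ι] (hd : 2 * d ≤ n + 1) (h : Fam (Fin n) ι d) :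
    Fintype.card ι ≤ MNC n d := by
  obtain ⟨𝒞, h1, h2⟩ := class_of_fam h
  obtain ⟨𝒟, h3, h4⟩ := exact_superset hd _ 𝒞 rfl h1
  rw [← h2]
  exact (card_le_card h3).trans (le_csSup (bdd n d) ⟨𝒟, h4, rfl⟩)

lemma exists_fam (n d : ℕ) : ∃ k : ℕ, k = MNC n d ∧ Fam (Fin n) (Fin k) d := by
  rcases Set.eq_empty_or_nonempty
    {k : ℕ | ∃ 𝒞 : Finset (Finset (Fin n)), NCTD 𝒞 = d ∧ 𝒞.card = k} with h | h
  · refine ⟨0, ?_, fun i => i.elim0, fun i => i.elim0, fun i => i.elim0, fun i => i.elim0⟩
    unfold MNC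
    rw [h]
    simp
  · obtain ⟨𝒞, h1, h2⟩ := Nat.sSup_mem h (bdd n d)
    refine ⟨MNC n d, rfl, ?_⟩
    have h3 : Fintype.card {C // C ∈ 𝒞} = MNC n d := by
      rw [Fintype.card_coe]
      exact h2
    exact (fam_of_class h1.le).comp (Fintype.equivFinOfCardEq h3).symm
      (Fintype.equivFinOfCardEq h3).symm.injective

lemma MNC_upper {n d r : ℕ} (hdr : d ≤ r) (hr : r ≤ n) :
    MNC n d * r.choose d ≤ 2 ^ r * n.choose d := by
  obtain ⟨k, hk, h⟩ := exists_fam n d
  have := fam_upper (r := r) h hdr (by simpa using hr)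
  simpa [hk] using this

lemma MNC_central {n d : ℕ} (hd : 2 * d ≤ n + 1) :
    MNC n d * (2 * d).choose d ≤ 4 ^ d * n.choose d := by
  rcases Nat.lt_or_ge n (2 * d) with h | h
  · obtain rfl : n = 2 * d - 1 := by omega
    obtain ⟨e, rfl⟩ : ∃ e, d = e + 1 := ⟨d - 1, by omega⟩
    have h1 := MNC_upper (n := 2 * (e + 1) - 1) (d := e + 1) (r := 2 * (e + 1) - 1) (by omega)
      le_rfl
    have h2 : 2 * (e + 1) - 1 = 2 * e + 1 := by omega
    rw [h2] at h1 ⊢
    have h3 : (2 * (e + 1)).choose (e + 1) = 2 * (2 * e + 1).choose (e + 1) := by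
      have h4 : 2 * (e + 1) = (2 * e + 1) + 1 := by ring
      rw [h4, Nat.choose_succ_succ']
      have h5 : (2 * e + 1).choose (e + 1) = (2 * e + 1).choose e := Nat.choose_symm_half e
      omega
    rw [h3]
    calc MNC (2 * e + 1) (e + 1) * (2 * (2 * e + 1).choose (e + 1))
        = 2 * (MNC (2 * e + 1) (e + 1) * (2 * e + 1).choose (e + 1)) := by ring
      _ ≤ 2 * (2 ^ (2 * e + 1) * (2 * e + 1).choose (e + 1)) := Nat.mul_le_mul_left _ h1
      _ = 4 ^ (e + 1) * (2 * e + 1).choose (e + 1) := by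
          have : (4 : ℕ) ^ (e + 1) = 2 * 2 ^ (2 * e + 1) := by
            rw [show (4 : ℕ) = 2 ^ 2 by norm_num, ← pow_mul]
            ring
          rw [this]; ring
  · have h1 := MNC_upper (n := n) (d := d) (r := 2 * d) (by omega) h
    rwa [show (2 : ℕ) ^ (2 * d) = 4 ^ d by rw [pow_mul]; norm_num] at h1

/-! ### Lower bounds -/

lemma sum_choose_le (m d : ℕ) (h : d ≤ m) : ∑ i ∈ range (d + 1), m.choose i ≤ 2 ^ m := by
  rw [← Nat.sum_range_choose m]
  exact sum_le_sum_of_subset (range_subset_range.2 (by omega))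

lemma pascal_sum (m d : ℕ) :
    ∑ i ∈ range (d + 2), (m + 1).choose i
      = ∑ i ∈ range (d + 2), m.choose i + ∑ i ∈ range (d + 1), m.choose i := by
  rw [sum_range_succ' (fun i => (m + 1).choose i), sum_range_succ' (fun i => m.choose i) (d + 1)]
  simp only [Nat.choose_succ_succ', sum_add_distrib, Nat.choose_zero_right]
  ring

lemma fam_lower : ∀ (n d : ℕ), 1 ≤ d → 2 * d ≤ n + 1 →
    ∃ k : ℕ, 2 * ∑ i ∈ range (d + 1), (n - 1).choose i ≤ k ∧ Fam (Fin n) (Fin k) d := by
  classical
  have tr : ∀ {n k d : ℕ} {α ι : Type} [Fintype α] [DecidableEq α] [Fintype ι],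
      Fam α ι d → Fintype.card α = n → Fintype.card ι = k → Fam (Fin n) (Fin k) d := by
    intro n k d α ι _ _ _ h h1 h2
    exact (h.congr (Fintype.equivFinOfCardEq h1)).comp (Fintype.equivFinOfCardEq h2).symm
      (Fintype.equivFinOfCardEq h2).symm.injective
  intro n
  induction n with
  | zero => intro d h1 h2; omega
  | succ n ih =>
    intro d h1 h2
    rcases Nat.lt_or_ge d 2 with hd | hd
    · obtain rfl : d = 1 := by omega
      refine ⟨2 * (n + 1), ?_, tr (fam_one (n + 1)) (by simp) (by simp [mul_comm])⟩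
      simp [sum_range_succ]
      omega
    · rcases Nat.lt_or_ge (n + 1) (2 * d + 1) with hn | hn
      · refine ⟨2 ^ (n + 1), ?_, (tr (fam_cube (n + 1)) (by simp) (by simp)).mono (by omega)⟩
        have := sum_choose_le n d (by omega)
        rw [pow_succ]
        simp only [Nat.add_sub_cancel]
        omega
      · obtain ⟨e, rfl⟩ : ∃ e, d = e + 1 := ⟨d - 1, by omega⟩
        obtain ⟨k, hk, hk2⟩ := ih (e + 1) (by omega) (by omega)
        obtain ⟨l, hl, hl2⟩ := ih e (by omega) (by omega)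
        refine ⟨k + l, ?_, tr (fam_rec hk2 hl2) (by simp) (by simp)⟩
        obtain ⟨m, rfl⟩ : ∃ m, n = m + 1 := ⟨n - 1, by omega⟩
        simp only [Nat.add_sub_cancel] at hk hl ⊢
        rw [pascal_sum]
        change 2 * ∑ i ∈ range (e + 2), m.choose i ≤ k at hk
        omega

lemma MNC_lower {n d : ℕ} (h1 : 1 ≤ d) (h2 : 2 * d ≤ n + 1) :
    2 * ∑ i ∈ range (d + 1), (n - 1).choose i ≤ MNC n d := by
  obtain ⟨k, hk, h⟩ := fam_lower n d h1 h2
  have := le_MNC h2 h
  simp only [Fintype.card_fin] at this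
  omega

lemma choose_le_sum {n d : ℕ} (h1 : 1 ≤ d) (h2 : 2 * d ≤ n + 1) :
    n.choose d ≤ ∑ i ∈ range (d + 1), (n - 1).choose i := by
  obtain ⟨m, rfl⟩ : ∃ m, n = m + 1 := ⟨n - 1, by omega⟩
  obtain ⟨e, rfl⟩ : ∃ e, d = e + 1 := ⟨d - 1, by omega⟩
  simp only [Nat.add_sub_cancel]
  rw [Nat.choose_succ_succ', sum_range_succ, sum_range_succ]
  omega

/-- Blow-ups. -/
lemma fam_blowup {α ι : Type} [DecidableEq α] [Fintype α] [Fintype ι] {d : ℕ} (m : ℕ)
    (h : Fam α ι d) (hd : d ≤ Fintype.card α) :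
    ∃ k, k = Fintype.card ι * m ^ d ∧ Fam (α × Fin m) (Fin k) d := by
  classical
  obtain ⟨c, t0, hc0, ht0⟩ := h
  have hex : ∀ i, ∃ s : Finset α, t0 i ⊆ s ∧ s.card = d := by
    intro i
    obtain ⟨s, h1, h2⟩ := Finset.exists_superset_card_eq (ht0 i) hd
    exact ⟨s, h1, h2⟩
  choose t ht htd using hex
  have hc : ∀ i j, i ≠ j → ∃ x ∈ t i ∪ t j, c i x ≠ c j x := by
    intro i j hij
    obtain ⟨x, hx, hne⟩ := hc0 i j hij
    refine ⟨x, ?_, hne⟩
    rw [mem_union] at hx ⊢
    exact hx.imp (fun h => ht i h) (fun h => ht j h)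
  refine ⟨_, rfl, ?_⟩
  have hcard : Fintype.card (Σ i : ι, (t i → Fin m)) = Fintype.card ι * m ^ d := by
    rw [Fintype.card_sigma]
    simp [htd]
  refine Fam.comp (ι := Σ i : ι, (t i → Fin m)) ?_ (Fintype.equivFinOfCardEq hcard).symm
    (Fintype.equivFinOfCardEq hcard).symm.injective
  -- the point of the block `x` taught
  refine ⟨fun p z => if h : z.1 ∈ t p.1 then (if z.2 ≤ p.2 ⟨z.1, h⟩ then c p.1 z.1 else !c p.1 z.1)
      else c p.1 z.1,
    fun p => (t p.1).attach.image fun x => (x.1, p.2 x), ?_, ?_⟩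
  · rintro ⟨i, f⟩ ⟨j, g⟩ hne
    have memi : ∀ (i : ι) (f : t i → Fin m) (x : α) (hx : x ∈ t i),
        (x, f ⟨x, hx⟩) ∈ (t i).attach.image fun x => (x.1, f x) := by
      intro i f x hx
      exact mem_image.2 ⟨⟨x, hx⟩, mem_attach _ _, rfl⟩
    by_cases hij : i = j
    · subst hij
      have hfg : f ≠ g := fun h => hne (by rw [h])
      obtain ⟨⟨x, hx⟩, hfx⟩ := Function.ne_iff.1 hfg
      rcases lt_or_gt_of_ne hfx with hlt | hlt
      · refine ⟨(x, g ⟨x, hx⟩), mem_union_right _ (memi i g x hx), ?_⟩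
        simp [hx, not_le.2 hlt]
      · refine ⟨(x, f ⟨x, hx⟩), mem_union_left _ (memi i f x hx), ?_⟩
        simp [hx, not_le.2 hlt]
    · obtain ⟨x, hx, hd⟩ := hc i j hij
      by_cases hi : x ∈ t i
      · by_cases hj : x ∈ t j
        · rcases le_total (f ⟨x, hi⟩) (g ⟨x, hj⟩) with hle | hle
          · refine ⟨(x, f ⟨x, hi⟩), mem_union_left _ (memi i f x hi), ?_⟩
            simpa [hi, hj, hle] using hd
          · refine ⟨(x, g ⟨x, hj⟩), mem_union_right _ (memi j g x hj), ?_⟩
            simpa [hi, hj, hle] using hd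
        · refine ⟨(x, f ⟨x, hi⟩), mem_union_left _ (memi i f x hi), ?_⟩
          simpa [hi, hj] using hd
      · have hj : x ∈ t j := (mem_union.1 hx).resolve_left hi
        refine ⟨(x, g ⟨x, hj⟩), mem_union_right _ (memi j g x hj), ?_⟩
        simpa [hi, hj] using hd
  · rintro ⟨i, f⟩
    refine card_image_le.trans ?_
    rw [card_attach, htd i]

lemma MNC_blowup {n d m : ℕ} (hdn : d ≤ n) (hd : 2 * d ≤ n * m + 1) :
    MNC n d * m ^ d ≤ MNC (n * m) d := by
  obtain ⟨k, hk, h⟩ := exists_fam n d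
  obtain ⟨l, hl, h2⟩ := fam_blowup m h (by simpa using hdn)
  have h3 : Fam (Fin (n * m)) (Fin l) d := h2.congr finProdFinEquiv
  have := le_MNC hd h3
  rw [Fintype.card_fin, hl, Fintype.card_fin, hk] at this
  exact this

/-- The density does not increase. -/
lemma MNC_step {n d : ℕ} (hd : 2 * d ≤ n + 1) (hdn : d ≤ n) :
    MNC (n + 1) d * (n + 1 - d) ≤ (n + 1) * MNC n d := by
  classical
  obtain ⟨k, hk, c, t0, hc0, ht0⟩ := exists_fam (n + 1) d
  have hex : ∀ i, ∃ s : Finset (Fin (n + 1)), t0 i ⊆ s ∧ s.card = d := by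
    intro i
    obtain ⟨s, h1, h2⟩ := Finset.exists_superset_card_eq (ht0 i) (by simp; omega)
    exact ⟨s, h1, h2⟩
  choose t ht htd using hex
  have hc : ∀ i j, i ≠ j → ∃ x ∈ t i ∪ t j, c i x ≠ c j x := by
    intro i j hij
    obtain ⟨x, hx, hne⟩ := hc0 i j hij
    refine ⟨x, ?_, hne⟩
    rw [mem_union] at hx ⊢
    exact hx.imp (fun h => ht i h) (fun h => ht j h)
  have h1 : ∑ i : Fin k, (univ.filter fun z : Fin (n + 1) => z ∉ t i).card
      = ∑ z : Fin (n + 1), (univ.filter fun i : Fin k => z ∉ t i).card := by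
    simp_rw [card_filter]
    rw [sum_comm]
  have h2 : ∀ i : Fin k, (univ.filter fun z : Fin (n + 1) => z ∉ t i).card = n + 1 - d := by
    intro i
    have : (univ.filter fun z : Fin (n + 1) => z ∉ t i) = univ \ t i := by ext; simp
    rw [this, card_sdiff_of_subset (subset_univ _), htd i]
    simp
  have h3 : ∀ z : Fin (n + 1), (univ.filter fun i : Fin k => z ∉ t i).card ≤ MNC n d := by
    intro z
    have hf : Fam {x : Fin (n + 1) // x ≠ z} {i : Fin k // z ∉ t i} d := by
      refine ⟨fun i x => c i.1 x.1, fun i => (t i.1).subtype (fun x => x ≠ z), ?_, ?_⟩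
      · rintro ⟨i, hi⟩ ⟨j, hj⟩ hne
        obtain ⟨x, hx, hd⟩ := hc i j (fun he => hne (Subtype.ext he))
        have hxz : x ≠ z := by
          rintro rfl
          rw [mem_union] at hx
          exact hx.elim hi hj
        refine ⟨⟨x, hxz⟩, ?_, hd⟩
        simpa using hx
      · rintro ⟨i, hi⟩
        refine le_trans ?_ (htd i).le
        rw [card_subtype]
        exact card_filter_le _ _
    have hcα : Fintype.card {x : Fin (n + 1) // x ≠ z} = n := by
      simp
    have := le_MNC hd (hf.congr (Fintype.equivFinOfCardEq hcα))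
    rwa [Fintype.card_subtype] at this
  calc MNC (n + 1) d * (n + 1 - d) = ∑ i : Fin k, (n + 1 - d) := by simp [hk]
    _ = ∑ i : Fin k, (univ.filter fun z : Fin (n + 1) => z ∉ t i).card :=
        sum_congr rfl fun i _ => (h2 i).symm
    _ = ∑ z : Fin (n + 1), (univ.filter fun i : Fin k => z ∉ t i).card := h1
    _ ≤ ∑ z : Fin (n + 1), MNC n d := sum_le_sum fun z _ => h3 z
    _ = (n + 1) * MNC n d := by simp

/-! ### Asymptotics -/

lemma four_pow_le (d : ℕ) (hd : 1 ≤ d) :
    (4 : ℝ) ^ d ≤ 2 * Real.sqrt d * ((2 * d).choose d : ℝ) := by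
  have key : ∀ d : ℕ, 1 ≤ d → 16 ^ d ≤ 4 * d * ((2 * d).choose d) ^ 2 := by
    intro d hd
    induction d, hd using Nat.le_induction with
    | base => decide
    | succ k hk ih =>
      have h1 : (k + 1) * (2 * (k + 1)).choose (k + 1) = 2 * (2 * k + 1) * (2 * k).choose k := by
        have := Nat.succ_mul_centralBinom_succ k
        simpa [Nat.centralBinom] using this
      have h2 : 0 < (k + 1) := by omega
      refine Nat.le_of_mul_le_mul_right ?_ (show 0 < k * (k + 1) by positivity)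
      calc 16 ^ (k + 1) * (k * (k + 1)) = 16 * (k * (k + 1)) * 16 ^ k := by ring
        _ ≤ 16 * (k * (k + 1)) * (4 * k * ((2 * k).choose k) ^ 2) := Nat.mul_le_mul_left _ ih
        _ = 4 * k * ((4 * (4 * (k * (k + 1)))) * ((2 * k).choose k) ^ 2) := by ring
        _ ≤ 4 * k * ((4 * (2 * k + 1) ^ 2) * ((2 * k).choose k) ^ 2) := by
            apply Nat.mul_le_mul_left
            apply Nat.mul_le_mul_right
            apply Nat.mul_le_mul_left
            nlinarith
        _ = 4 * k * (2 * (2 * k + 1) * (2 * k).choose k) ^ 2 := by ring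
        _ = 4 * k * ((k + 1) * (2 * (k + 1)).choose (k + 1)) ^ 2 := by rw [h1]
        _ = 4 * (k + 1) * ((2 * (k + 1)).choose (k + 1)) ^ 2 * (k * (k + 1)) := by ring
  have h := key d hd
  have h' : ((16 : ℝ)) ^ d ≤ 4 * d * ((2 * d).choose d : ℝ) ^ 2 := by exact_mod_cast h
  have h2 : ((4 : ℝ) ^ d) ^ 2 ≤ (2 * Real.sqrt d * ((2 * d).choose d : ℝ)) ^ 2 := by
    rw [mul_pow, mul_pow, Real.sq_sqrt (by positivity), ← pow_mul, mul_comm d 2, pow_mul]
    norm_num
    exact h'
  exact le_of_sq_le_sq h2 (by positivity)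

lemma MNC_pos {n d : ℕ} (h : 2 * d ≤ n + 1) : 0 < MNC n d := by
  have h1 : Fam (Fin n) (Fin 1) d :=
    ⟨fun _ _ => true, fun _ => ∅, fun i j hij => absurd (Subsingleton.elim i j) hij, by simp⟩
  have := le_MNC h h1
  simpa [Nat.one_le_iff_ne_zero, Nat.pos_iff_ne_zero] using this

/-- the density -/
noncomputable def dens (n d : ℕ) : ℝ := (MNC n d : ℝ) / (n.choose d : ℝ)

lemma dens_step {n d : ℕ} (hd : 2 * d ≤ n + 1) (hdn : d ≤ n) : dens (n + 1) d ≤ dens n d := by
  have h1 := MNC_step hd hdn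
  have h2 : n.choose d * (n + 1) = (n + 1).choose d * (n + 1 - d) := Nat.choose_mul_succ_eq n d
  have h3 : 0 < n.choose d := Nat.choose_pos hdn
  have h4 : 0 < (n + 1).choose d := Nat.choose_pos (by omega)
  have h5 : 0 < n + 1 - d := by omega
  unfold dens
  rw [div_le_div_iff₀ (by exact_mod_cast h4) (by exact_mod_cast h3)]
  have h6 : MNC (n + 1) d * n.choose d ≤ MNC n d * (n + 1).choose d := by
    refine Nat.le_of_mul_le_mul_right ?_ h5
    calc MNC (n + 1) d * n.choose d * (n + 1 - d)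
        = (MNC (n + 1) d * (n + 1 - d)) * n.choose d := by ring
      _ ≤ ((n + 1) * MNC n d) * n.choose d := Nat.mul_le_mul_right _ h1
      _ = MNC n d * (n.choose d * (n + 1)) := by ring
      _ = MNC n d * (n + 1).choose d * (n + 1 - d) := by rw [h2]; ring
  exact_mod_cast h6

lemma dens_anti {n m d : ℕ} (hd : 2 * d ≤ n + 1) (hdn : d ≤ n) (hnm : n ≤ m) :
    dens m d ≤ dens n d := by
  induction m, hnm using Nat.le_induction with
  | base => exact le_rfl
  | succ k hk ih => exact (dens_step (by omega) (by omega)).trans ih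

lemma choose_le_pow_div' (n d : ℕ) : (n.choose d : ℝ) ≤ (n : ℝ) ^ d / (d.factorial : ℝ) :=
  Nat.choose_le_pow_div d n

lemma dens_ge_of_blowup {n k d : ℕ} (hdn : d ≤ n) (hk : 1 ≤ k) (hd : 2 * d ≤ n * k + 1) :
    (d.factorial : ℝ) * MNC n d / (n : ℝ) ^ d ≤ dens (n * k) d := by
  rcases Nat.eq_zero_or_pos n with rfl | hn
  · obtain rfl : d = 0 := by omega
    have h1 := MNC_blowup (n := 0) (d := 0) (m := k) (by omega) (by omega)
    simp only [pow_zero, mul_one, Nat.zero_mul] at h1 ⊢
    simp [dens]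
  · have h1 : MNC n d * k ^ d ≤ MNC (n * k) d := MNC_blowup hdn hd
    have h2 : ((n * k : ℕ).choose d : ℝ) ≤ ((n * k : ℕ) : ℝ) ^ d / d.factorial :=
      choose_le_pow_div' _ _
    have hdk : d ≤ n * k := hdn.trans (Nat.le_mul_of_pos_right n hk)
    have h3 : (0 : ℝ) < ((n * k : ℕ).choose d : ℝ) := by
      exact_mod_cast Nat.choose_pos hdk
    have hfac : (0 : ℝ) < d.factorial := by exact_mod_cast d.factorial_pos
    have hnp : (0 : ℝ) < (n : ℝ) ^ d := by positivity
    have hkp : (0 : ℝ) < (k : ℝ) ^ d := by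
      have : (0 : ℝ) < k := by exact_mod_cast hk
      positivity
    unfold dens
    rw [div_le_div_iff₀ hnp h3]
    have h1' : (MNC n d : ℝ) * (k : ℝ) ^ d ≤ MNC (n * k) d := by exact_mod_cast h1
    calc (d.factorial : ℝ) * MNC n d * ((n * k : ℕ).choose d : ℝ)
        ≤ (d.factorial : ℝ) * MNC n d * (((n * k : ℕ) : ℝ) ^ d / d.factorial) := by
          apply mul_le_mul_of_nonneg_left h2 (by positivity)
      _ = (MNC n d : ℝ) * (k : ℝ) ^ d * (n : ℝ) ^ d := by
          push_cast
          rw [mul_pow]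
          field_simp
      _ ≤ (MNC (n * k) d : ℝ) * (n : ℝ) ^ d := mul_le_mul_of_nonneg_right h1' hnp.le

/-- The limit constant. -/
theorem exists_const (d : ℕ) (hd1 : 1 ≤ d) :
    ∃ c : ℝ, 2 ≤ c ∧ c * ((2 * d).choose d : ℝ) ≤ 4 ^ d ∧
      (∀ n : ℕ, 2 * d ≤ n + 1 →
        c * (n.choose d : ℝ) ≤ MNC n d ∧ (MNC n d : ℝ) ≤ c * ((n : ℝ) ^ d / d.factorial)) ∧
      Filter.Tendsto (fun n : ℕ => (MNC n d : ℝ) / (n.choose d : ℝ)) Filter.atTop (nhds c) := by
  -- the sequence of densities from `2 d` on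
  let a : ℕ → ℝ := fun k => dens (k + 2 * d) d
  have ha : Antitone a := by
    intro k l hkl
    exact dens_anti (by omega) (by omega) (by omega)
  have hlow : ∀ n : ℕ, 2 * d ≤ n + 1 → 2 ≤ dens n d := by
    intro n hn
    have hpos : 0 < n.choose d := Nat.choose_pos (by omega)
    unfold dens
    rw [le_div_iff₀ (by exact_mod_cast hpos)]
    have h1 := MNC_lower hd1 hn
    have h2 := choose_le_sum hd1 hn
    have h3 : 2 * n.choose d ≤ MNC n d := by omega
    exact_mod_cast h3
  have hbdd : BddBelow (Set.range a) := by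
    refine ⟨2, ?_⟩
    rintro _ ⟨k, rfl⟩
    exact hlow _ (by omega)
  have hlim := tendsto_atTop_ciInf ha hbdd
  set c := ⨅ k, a k with hcdef
  have hc2 : 2 ≤ c := le_ciInf fun k => hlow _ (by omega)
  have hcn : ∀ n : ℕ, 2 * d ≤ n + 1 → c ≤ dens n d := by
    intro n hn
    have h1 : c ≤ a n := ciInf_le hbdd n
    exact h1.trans (dens_anti hn (by omega) (by omega))
  refine ⟨c, hc2, ?_, ?_, ?_⟩
  · have h1 := hcn (2 * d) (by omega)
    have h2 := MNC_central (n := 2 * d) (d := d) (by omega)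
    have hpos : 0 < (2 * d).choose d := Nat.choose_pos (by omega)
    have hpos' : (0 : ℝ) < ((2 * d).choose d : ℝ) := by exact_mod_cast hpos
    have h3 : MNC (2 * d) d ≤ 4 ^ d := Nat.le_of_mul_le_mul_right h2 hpos
    unfold dens at h1
    rw [le_div_iff₀ hpos'] at h1
    exact h1.trans (by exact_mod_cast h3)
  · intro n hn
    have hpos : 0 < n.choose d := Nat.choose_pos (by omega)
    have hpos' : (0 : ℝ) < (n.choose d : ℝ) := by exact_mod_cast hpos
    have hn0 : 1 ≤ n := by omega
    constructor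
    · have h1 := hcn n hn
      unfold dens at h1
      rwa [le_div_iff₀ hpos'] at h1
    · have h1 : (d.factorial : ℝ) * MNC n d / (n : ℝ) ^ d ≤ c := by
        refine le_ciInf fun k => ?_
        have h2 := dens_ge_of_blowup (n := n) (k := k + 2 * d) (d := d) (by omega) (by omega)
          (by nlinarith)
        refine h2.trans ?_
        exact dens_anti (by omega) (by omega) (Nat.le_mul_of_pos_left _ hn0)
      have hfac : (0 : ℝ) < d.factorial := by exact_mod_cast d.factorial_pos
      have hnp : (0 : ℝ) < (n : ℝ) ^ d := by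
        have : (0 : ℝ) < n := by exact_mod_cast hn0
        positivity
      rw [div_le_iff₀ hnp] at h1
      rw [mul_div_assoc', le_div_iff₀ hfac]
      linarith
  · have h1 : (fun k : ℕ => (MNC (k + 2 * d) d : ℝ) / ((k + 2 * d).choose d : ℝ)) = a := rfl
    rw [← Filter.tendsto_add_atTop_iff_nat (2 * d), h1]
    exact hlim

/-! ### An explicit class of 51 concepts over 7 points -/

/-- Concepts (first entries) and the pairs of points assigned to them, written in binary. -/
def L51 : List (ℕ × ℕ) :=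
  [(5, 18), (7, 17), (8, 6), (9, 5), (10, 48), (12, 10), (13, 9), (18, 72), (20, 3), (21,
   66), (22, 68), (23, 65), (26, 96), (36, 17), (37, 48), (38, 18), (41, 36), (42, 5), (43,
   6), (45, 40), (46, 9), (47, 10), (52, 33), (53, 96), (54, 34), (58, 20), (62, 24), (66,
   12), (70, 40), (73, 96), (78, 36), (81, 10), (82, 24), (83, 9), (85, 6), (86, 20), (87,
   5), (89, 48), (90, 33), (91, 34), (100, 65), (102, 66), (105, 66), (106, 68), (107, 65),
   (110, 72), (113, 40), (117, 36), (121, 18), (122, 80), (123, 17)]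

set_option maxRecDepth 100000 in
lemma L51_pairwise : L51.Pairwise fun p q => ((List.finRange 7).any fun x =>
    (p.2.testBit x || q.2.testBit x) && (p.1.testBit x != q.1.testBit x)) = true := by
  decide +kernel

set_option maxRecDepth 100000 in
lemma L51_card : ∀ p ∈ L51, (univ.filter fun x : Fin 7 => p.2.testBit x = true).card ≤ 2 := by
  decide +kernel

lemma L51_length : L51.length = 51 := by decide +kernel

lemma fam51 : Fam (Fin 7) (Fin 51) 2 := by
  have hget : ∀ i : Fin 51, i.1 < L51.length := fun i => by rw [L51_length]; exact i.2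
  refine ⟨fun i x => (L51[i.1]'(hget i)).1.testBit x,
    fun i => univ.filter fun x : Fin 7 => (L51[i.1]'(hget i)).2.testBit x = true, ?_, ?_⟩
  · have key : ∀ i j : Fin 51, i < j → ∃ x : Fin 7,
        ((L51[i.1]'(hget i)).2.testBit x = true ∨ (L51[j.1]'(hget j)).2.testBit x = true) ∧
        (L51[i.1]'(hget i)).1.testBit x ≠ (L51[j.1]'(hget j)).1.testBit x := by
      intro i j hij
      have h := (List.pairwise_iff_getElem.1 L51_pairwise) i.1 j.1 (hget i) (hget j) hij
      rw [List.any_eq_true] at h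
      obtain ⟨x, -, hx⟩ := h
      refine ⟨x, ?_⟩
      simpa using hx
    intro i j hij
    rcases lt_or_gt_of_ne hij with h | h
    · obtain ⟨x, h1, h2⟩ := key i j h
      exact ⟨x, by simpa using h1, h2⟩
    · obtain ⟨x, h1, h2⟩ := key j i h
      exact ⟨x, by simpa using h1.symm, h2.symm⟩
  · intro i
    exact L51_card _ (List.getElem_mem _)

/-! ### The theorem -/

theorem result :
    -- `M_NC(n, d)` is defined (some class over `n` points has NC-dimension `d`) iff `2 d ≤ n + 1`
    (∀ n d : ℕ, (∃ 𝒞 : Finset (Finset (Fin n)), NCTD 𝒞 = d) ↔ 2 * d ≤ n + 1) ∧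
    -- upper bounds
    (∀ n d r : ℕ, d ≤ r → r ≤ n → MNC n d * r.choose d ≤ 2 ^ r * n.choose d) ∧
    -- the order of magnitude up to the factor `√d`
    (∀ n d : ℕ, 1 ≤ d → 2 * d ≤ n + 1 →
      MNC n d * (2 * d).choose d ≤ 4 ^ d * n.choose d ∧
      2 * ∑ i ∈ range (d + 1), (n - 1).choose i ≤ MNC n d ∧
      (MNC n d : ℝ) ≤ Real.sqrt d * (2 * ∑ i ∈ range (d + 1), (n - 1).choose i : ℕ)) ∧
    -- exact values
    (∀ d : ℕ, 1 ≤ d → MNC (2 * d) d = 4 ^ d ∧ MNC (2 * d - 1) d = 2 ^ (2 * d - 1)) ∧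
    -- the asymptotic law for fixed `d`
    (∀ d : ℕ, 1 ≤ d → ∃ c : ℝ, 2 ≤ c ∧ c * ((2 * d).choose d : ℝ) ≤ 4 ^ d ∧
      (∀ n : ℕ, 2 * d ≤ n + 1 →
        c * (n.choose d : ℝ) ≤ MNC n d ∧ (MNC n d : ℝ) ≤ c * ((n : ℝ) ^ d / d.factorial)) ∧
      Filter.Tendsto (fun n : ℕ => (MNC n d : ℝ) / (n.choose d : ℝ)) Filter.atTop (nhds c)) ∧
    -- the case `d = 2`
    (∃ c : ℝ, 102 / 49 ≤ c ∧ c ≤ 8 / 3 ∧ ∀ n : ℕ, 3 ≤ n →
      c * (n * (n - 1) / 2) ≤ MNC n 2 ∧ (MNC n 2 : ℝ) ≤ c * (n ^ 2 / 2)) ∧
    (∀ n : ℕ, 3 ≤ n → 4 * (n / 2) * ((n + 1) / 2) ≤ MNC n 2 ∧ 3 * MNC n 2 ≤ 4 * n * (n - 1)) := by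
  classical
  refine ⟨exists_iff, fun n d r => MNC_upper, ?_, ?_, exists_const, ?_, ?_⟩
  · intro n d h1 h2
    refine ⟨MNC_central h2, MNC_lower h1 h2, ?_⟩
    have h3 := MNC_central h2
    have h3' : (MNC n d : ℝ) * ((2 * d).choose d : ℝ) ≤ 4 ^ d * (n.choose d : ℝ) := by
      exact_mod_cast h3
    have h4 := four_pow_le d h1
    have hpos : (0 : ℝ) < ((2 * d).choose d : ℝ) := by
      exact_mod_cast Nat.choose_pos (by omega)
    have h5 : (n.choose d : ℝ) ≤ ((∑ i ∈ range (d + 1), (n - 1).choose i : ℕ) : ℝ) := by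
      exact_mod_cast choose_le_sum h1 h2
    have h6 : (MNC n d : ℝ) ≤ 2 * Real.sqrt d * (n.choose d : ℝ) := by
      refine le_of_mul_le_mul_right ?_ hpos
      calc (MNC n d : ℝ) * ((2 * d).choose d : ℝ) ≤ 4 ^ d * (n.choose d : ℝ) := h3'
        _ ≤ (2 * Real.sqrt d * ((2 * d).choose d : ℝ)) * (n.choose d : ℝ) :=
            mul_le_mul_of_nonneg_right h4 (by positivity)
        _ = 2 * Real.sqrt d * (n.choose d : ℝ) * ((2 * d).choose d : ℝ) := by ring
    calc (MNC n d : ℝ) ≤ 2 * Real.sqrt d * (n.choose d : ℝ) := h6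
      _ ≤ 2 * Real.sqrt d * ((∑ i ∈ range (d + 1), (n - 1).choose i : ℕ) : ℝ) :=
          mul_le_mul_of_nonneg_left h5 (by positivity)
      _ = Real.sqrt d * (2 * ∑ i ∈ range (d + 1), (n - 1).choose i : ℕ) := by
          push_cast
          ring
  · intro d hd
    have cube : ∀ n, 2 * d ≤ n + 1 → n ≤ 2 * d → MNC n d = 2 ^ n := by
      intro n h1 h2
      apply le_antisymm
      · have := MNC_upper (n := n) (d := d) (r := n) (by omega) le_rfl
        exact Nat.le_of_mul_le_mul_right this (Nat.choose_pos (by omega))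
      · have := le_MNC (d := d) h1 ((fam_cube n).mono (by omega))
        simpa using this
    refine ⟨?_, cube _ (by omega) (by omega)⟩
    rw [cube (2 * d) (by omega) le_rfl, pow_mul]
    norm_num
  · obtain ⟨c, h1, h2, h3, -⟩ := exists_const 2 (by norm_num)
    refine ⟨c, ?_, ?_, ?_⟩
    · have h4 := (h3 7 (by norm_num)).2
      have h5 : (51 : ℝ) ≤ MNC 7 2 := by
        have := le_MNC (n := 7) (d := 2) (by norm_num) fam51
        rw [Fintype.card_fin] at this
        exact_mod_cast this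
      have h6 : ((2 : ℕ).factorial : ℝ) = 2 := by norm_num
      rw [h6] at h4
      have h7 : (51 : ℝ) ≤ c * ((7 : ℝ) ^ 2 / 2) := by
        refine h5.trans ?_
        exact_mod_cast h4
      linarith
    · have h4 : ((2 * 2).choose 2 : ℝ) = 6 := by norm_num [Nat.choose]
      rw [h4] at h2
      linarith
    · intro n hn
      have h4 := h3 n (by omega)
      have h5 : (n.choose 2 : ℝ) = n * (n - 1) / 2 := by
        rw [Nat.cast_choose_two]
      have h6 : ((2 : ℕ).factorial : ℝ) = 2 := by norm_num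
      rw [h5, h6] at h4
      exact h4
  · intro n hn
    constructor
    · have h1 := fam_prod (fam_one (n / 2)) (fam_one ((n + 1) / 2))
      have hc : Fintype.card (Fin (n / 2) ⊕ Fin ((n + 1) / 2)) = n := by
        simp
        omega
      have := le_MNC (d := 2) (by omega) (h1.congr (Fintype.equivFinOfCardEq hc))
      simp only [Fintype.card_prod, Fintype.card_fin, Fintype.card_bool] at this
      calc 4 * (n / 2) * ((n + 1) / 2) = n / 2 * 2 * ((n + 1) / 2 * 2) := by ring
        _ ≤ MNC n 2 := this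
    · have h1 := MNC_upper (n := n) (d := 2) (r := 3) (by norm_num) hn
      have h2 : (3 : ℕ).choose 2 = 3 := by decide
      have h3 : n.choose 2 * 2 = n * (n - 1) := by
        rw [Nat.choose_two_right]
        exact Nat.div_mul_cancel (even_iff_two_dvd.1 (Nat.even_mul_pred_self n))
      rw [h2] at h1
      calc 3 * MNC n 2 = MNC n 2 * 3 := by ring
        _ ≤ 2 ^ 3 * n.choose 2 := h1
        _ = 4 * (n.choose 2 * 2) := by ring
        _ = 4 * n * (n - 1) := by rw [h3]; ring

end Pool.Agent.Results.MP_4dbef5_lc.NoClashBounds
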