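import Mathlib
import Pool.Agent.R817.NCFive
import Pool.Agent.Results.MP_4dbef5_lc.NoClashBounds

/-!
# Classes of no-clash teaching dimension two

The exact value for five points is obtained from a certified search; the upper bound for all larger
numbers of points follows by averaging and rounding. The lower bound uses blow-ups of a class of
25 concepts over 5 points, with further concepts taught inside the blocks.
-/

set_option autoImplicit false

namespace Pool.Agent.Results.MP_4dbef5_lc.OrderTwo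

open Finset Pool.Agent.Results.MP_4dbef5_lc.NoClashBounds

/-- Lists of concepts and sets of at most two points, in binary, without a clash. -/
def Good (n : ℕ) (L : List (ℕ × ℕ)) : Prop :=
  (L.Pairwise fun p q => ((List.finRange n).any fun x =>
    (p.2.testBit x || q.2.testBit x) && (p.1.testBit x != q.1.testBit x)) = true) ∧
  ∀ p ∈ L, (univ.filter fun x : Fin n => p.2.testBit x = true).card ≤ 2

lemma fam_of_list {n k : ℕ} {L : List (ℕ × ℕ)} (hL : Good n L) (hk : L.length = k) :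
    Fam (Fin n) (Fin k) 2 := by
  obtain ⟨h1, h2⟩ := hL
  have hget : ∀ i : Fin k, i.1 < L.length := fun i => by rw [hk]; exact i.2
  refine ⟨fun i x => (L[i.1]'(hget i)).1.testBit x,
    fun i => univ.filter fun x : Fin n => (L[i.1]'(hget i)).2.testBit x = true, ?_, ?_⟩
  · have key : ∀ i j : Fin k, i < j → ∃ x : Fin n,
        ((L[i.1]'(hget i)).2.testBit x = true ∨ (L[j.1]'(hget j)).2.testBit x = true) ∧
        (L[i.1]'(hget i)).1.testBit x ≠ (L[j.1]'(hget j)).1.testBit x := by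
      intro i j hij
      have h := (List.pairwise_iff_getElem.1 h1) i.1 j.1 (hget i) (hget j) hij
      rw [List.any_eq_true] at h
      obtain ⟨x, -, hx⟩ := h
      refine ⟨x, ?_⟩
      simpa using hx
    intro i j hij
    rcases lt_or_gt_of_ne hij with h | h
    · obtain ⟨x, h1, h2⟩ := key i j h
      exact ⟨x, by simpa using h1, h2⟩
    · obtain ⟨x, h1, h2⟩ := key j i h
      exact ⟨x, by simpa using h1.symm, h2.symm⟩
  · intro i
    exact h2 _ (List.getElem_mem _)

/-- Blow-ups with further concepts taught inside the blocks. -/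
lemma fam_blowup_two {α ι : Type} [DecidableEq α] [Fintype α] [Fintype ι] (m : ℕ)
    (c : ι → α → Bool) (t : ι → Finset α) (K : α → α → Bool)
    (hc : ∀ i j, i ≠ j → ∃ x ∈ t i ∪ t j, c i x ≠ c j x) (ht : ∀ i, (t i).card = 2)
    (hK : ∀ i x y, x ∈ t i → y ∈ t i → x ≠ y → c i x = false → c i y ≠ K x y) :
    ∃ k, k = Fintype.card ι * m ^ 2 + Fintype.card α * (m * (m - 1) / 2) ∧
      Fam (α × Fin m) (Fin k) 2 := by
  classical
  refine ⟨_, rfl, ?_⟩
  have hcard : Fintype.card ((Σ i : ι, (t i → Fin m)) ⊕ (α × (Σ v : Fin m, Fin v.1))) =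
      Fintype.card ι * m ^ 2 + Fintype.card α * (m * (m - 1) / 2) := by
    rw [Fintype.card_sum, Fintype.card_sigma, Fintype.card_prod, Fintype.card_sigma]
    have h1 : ∑ v : Fin m, Fintype.card (Fin v.1) = m * (m - 1) / 2 := by
      simp only [Fintype.card_fin]
      rw [Fin.sum_univ_eq_sum_range (fun v => v), Finset.sum_range_id]
    rw [h1]
    simp [ht]
  refine Fam.comp (ι := (Σ i : ι, (t i → Fin m)) ⊕ (α × (Σ v : Fin m, Fin v.1))) ?_
    (Fintype.equivFinOfCardEq hcard).symm (Fintype.equivFinOfCardEq hcard).symm.injective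
  -- the concepts and the sets
  let cc : (Σ i : ι, (t i → Fin m)) ⊕ (α × (Σ v : Fin m, Fin v.1)) → α × Fin m → Bool :=
    Sum.elim (fun p z => if h : z.1 ∈ t p.1 then
        (if z.2 ≤ p.2 ⟨z.1, h⟩ then c p.1 z.1 else !c p.1 z.1) else c p.1 z.1)
      (fun q z => if z.1 = q.1 then decide (q.2.2.1 < z.2.1 ∧ z.2 ≤ q.2.1) else K q.1 z.1)
  let tt : (Σ i : ι, (t i → Fin m)) ⊕ (α × (Σ v : Fin m, Fin v.1)) → Finset (α × Fin m) :=
    Sum.elim (fun p => (t p.1).attach.image fun x => (x.1, p.2 x))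
      (fun q => {(q.1, ⟨q.2.2.1, q.2.2.2.trans q.2.1.2⟩), (q.1, q.2.1)})
  have memi : ∀ (i : ι) (f : t i → Fin m) (x : α) (hx : x ∈ t i),
      (x, f ⟨x, hx⟩) ∈ tt (Sum.inl ⟨i, f⟩) := by
    intro i f x hx
    exact mem_image.2 ⟨⟨x, hx⟩, mem_attach _ _, rfl⟩
  have memu : ∀ (x : α) (v : Fin m) (u : Fin v.1),
      (x, (⟨u.1, u.2.trans v.2⟩ : Fin m)) ∈ tt (Sum.inr ⟨x, v, u⟩) := by
    intro x v u
    exact mem_insert_self _ _
  have memv : ∀ (x : α) (v : Fin m) (u : Fin v.1), (x, v) ∈ tt (Sum.inr ⟨x, v, u⟩) := by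
    intro x v u
    exact mem_insert_of_mem (mem_singleton_self _)
  -- cross concepts against inner ones
  have cross : ∀ (i : ι) (f : t i → Fin m) (x : α) (v : Fin m) (u : Fin v.1),
      ∃ z ∈ tt (Sum.inl ⟨i, f⟩) ∪ tt (Sum.inr ⟨x, v, u⟩),
        cc (Sum.inl ⟨i, f⟩) z ≠ cc (Sum.inr ⟨x, v, u⟩) z := by
    intro i f x v u
    have huv := u.2
    by_contra hcon
    push Not at hcon
    have eu := hcon _ (mem_union_right _ (memu x v u))
    have ev := hcon _ (mem_union_right _ (memv x v u))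
    by_cases hx : x ∈ t i
    · have ef := hcon _ (mem_union_left _ (memi i f x hx))
      have hy : ∃ y ∈ t i, y ≠ x := by
        have h1 : 1 < (t i).card := by rw [ht i]; norm_num
        exact Finset.exists_mem_ne h1 x
      obtain ⟨y, hy, hyx⟩ := hy
      have eg := hcon _ (mem_union_left _ (memi i f y hy))
      simp only [cc, Sum.elim_inl, Sum.elim_inr, hx, dif_pos, if_true, hy, hyx, if_false, le_refl,
        Fin.le_def] at eu ev ef eg
      have hk := hK i x y hx hy hyx.symm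
      set a := (f ⟨x, hx⟩).1 with ha
      cases hcx : c i x
      · exact hk hcx eg
      · rw [hcx] at eu ev ef
        have h2 : u.1 < a ∧ a ≤ v.1 := by simpa using ef.symm
        have h3 : u.1 ≤ a := h2.1.le
        rw [if_pos h3] at eu
        simp at eu
    · simp only [cc, Sum.elim_inl, Sum.elim_inr, hx, dif_neg, not_false_eq_true, if_true,
        Fin.le_def] at eu ev
      rw [eu] at ev
      simp [huv] at ev
  refine ⟨cc, tt, ?_, ?_⟩
  · rintro (⟨i, f⟩ | ⟨x, v, u⟩) (⟨j, g⟩ | ⟨x', v', u'⟩) hne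
    · by_cases hij : i = j
      · subst hij
        have hfg : f ≠ g := fun h => hne (by rw [h])
        obtain ⟨⟨x, hx⟩, hfx⟩ := Function.ne_iff.1 hfg
        rcases lt_or_gt_of_ne hfx with hlt | hlt
        · refine ⟨(x, g ⟨x, hx⟩), mem_union_right _ (memi i g x hx), ?_⟩
          simp [cc, hx, not_le.2 hlt]
        · refine ⟨(x, f ⟨x, hx⟩), mem_union_left _ (memi i f x hx), ?_⟩
          simp [cc, hx, not_le.2 hlt]
      · obtain ⟨x, hx, hd⟩ := hc i j hij
        by_cases hi : x ∈ t i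
        · by_cases hj : x ∈ t j
          · rcases le_total (f ⟨x, hi⟩) (g ⟨x, hj⟩) with hle | hle
            · refine ⟨(x, f ⟨x, hi⟩), mem_union_left _ (memi i f x hi), ?_⟩
              simpa [cc, hi, hj, hle] using hd
            · refine ⟨(x, g ⟨x, hj⟩), mem_union_right _ (memi j g x hj), ?_⟩
              simpa [cc, hi, hj, hle] using hd
          · refine ⟨(x, f ⟨x, hi⟩), mem_union_left _ (memi i f x hi), ?_⟩
            simpa [cc, hi, hj] using hd
        · have hj : x ∈ t j := (mem_union.1 hx).resolve_left hi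
          refine ⟨(x, g ⟨x, hj⟩), mem_union_right _ (memi j g x hj), ?_⟩
          simpa [cc, hi, hj] using hd
    · exact cross i f x' v' u'
    · obtain ⟨z, hz, hzn⟩ := cross j g x v u
      exact ⟨z, by rw [union_comm]; exact hz, hzn.symm⟩
    · -- two inner concepts
      have huv := u.2
      have huv' := u'.2
      by_contra hcon
      push Not at hcon
      have eu := hcon _ (mem_union_left _ (memu x v u))
      have ev := hcon _ (mem_union_left _ (memv x v u))
      have eu' := hcon _ (mem_union_right _ (memu x' v' u'))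
      have ev' := hcon _ (mem_union_right _ (memv x' v' u'))
      by_cases hx : x = x'
      · subst hx
        simp only [cc, Sum.elim_inr, if_true, Fin.le_def, decide_eq_decide] at eu ev eu' ev'
        apply hne
        have h1 : v.1 = v'.1 := by omega
        have h2 : u.1 = u'.1 := by omega
        obtain rfl : v = v' := Fin.ext h1
        obtain rfl : u = u' := Fin.ext h2
        rfl
      · simp only [cc, Sum.elim_inr, if_true, hx, if_false, Fin.le_def] at eu ev
        rw [← ev] at eu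
        simp [huv] at eu
  · rintro (⟨i, f⟩ | ⟨x, v, u⟩)
    · refine card_image_le.trans ?_
      rw [card_attach, ht i]
    · exact card_le_two

/-- 25 concepts over 5 points -/
def L25 : List (ℕ × ℕ) :=
  [(1, 6), (2, 20), (3, 5), (4, 24), (5, 17), (6, 18), (7, 3), (8, 3), (9, 10),
   (10, 12), (11, 9), (12, 5), (13, 12), (14, 10), (16, 9), (17, 18), (18, 10), (19, 17),
   (20, 12), (21, 5), (22, 6), (24, 17), (25, 24), (26, 18), (28, 20)]

/-- the values outside the block of the concepts taught inside a block, in binary -/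
def K5 : List ℕ := [10, 5, 18, 17, 12]

/-- 37 concepts over 6 points -/
def L37 : List (ℕ × ℕ) :=
  [(1, 18), (2, 48), (3, 5), (4, 20), (6, 6), (7, 33), (11, 24), (15, 12), (17, 10),
   (18, 40), (19, 17), (20, 12), (24, 36), (26, 34), (27, 9), (28, 33), (29, 34), (31, 20),
   (32, 17), (33, 48), (34, 18), (36, 36), (37, 5), (39, 3), (44, 9), (45, 10), (47, 40),
   (48, 9), (49, 40), (50, 10), (56, 5), (57, 6), (58, 3), (59, 36), (60, 17), (61, 18),
   (63, 48)]

/-- 66 concepts over 8 points -/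
def L66 : List (ℕ × ℕ) :=
  [(0, 20), (4, 17), (5, 48), (7, 18), (8, 12), (12, 9), (15, 24), (16, 34), (17, 129),
   (18, 96), (21, 132), (29, 40), (37, 80), (48, 6), (50, 68), (52, 3), (53, 160), (54, 65),
   (55, 130), (63, 72), (72, 68), (74, 6), (76, 65), (78, 3), (79, 80), (82, 40), (90, 20),
   (93, 96), (94, 17), (95, 34), (101, 24), (106, 48), (109, 18), (114, 12), (117, 66), (118, 9),
   (119, 192), (122, 36), (125, 10), (126, 33), (127, 136), (128, 144), (138, 130), (145, 3), (146, 136),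
   (147, 65), (149, 6), (151, 68), (152, 192), (181, 34), (183, 96), (194, 192), (200, 136), (203, 5),
   (206, 132), (207, 129), (208, 130), (211, 9), (215, 12), (234, 160), (235, 33), (239, 36), (247, 40),
   (250, 144), (251, 17), (255, 20)]

set_option maxRecDepth 100000 in
lemma good25 : Good 5 L25 := ⟨by decide +kernel, by decide +kernel⟩

set_option maxRecDepth 100000 in
lemma good37 : Good 6 L37 := ⟨by decide +kernel, by decide +kernel⟩

set_option maxRecDepth 100000 in
lemma good66 : Good 8 L66 := ⟨by decide +kernel, by decide +kernel⟩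

lemma low5 : 25 ≤ MNC 5 2 := by
  have := le_MNC (n := 5) (d := 2) (by norm_num) (fam_of_list (k := 25) good25 (by decide +kernel))
  rwa [Fintype.card_fin] at this

lemma low6 : 37 ≤ MNC 6 2 := by
  have := le_MNC (n := 6) (d := 2) (by norm_num) (fam_of_list (k := 37) good37 (by decide +kernel))
  rwa [Fintype.card_fin] at this

lemma low7 : 51 ≤ MNC 7 2 := by
  have := le_MNC (n := 7) (d := 2) (by norm_num) fam51
  rwa [Fintype.card_fin] at this

lemma low8 : 66 ≤ MNC 8 2 := by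
  have := le_MNC (n := 8) (d := 2) (by norm_num) (fam_of_list (k := 66) good66 (by decide +kernel))
  rwa [Fintype.card_fin] at this

set_option maxRecDepth 100000 in
lemma pair25 : ∀ p ∈ L25, (univ.filter fun x : Fin 5 => p.2.testBit x = true).card = 2 := by
  decide +kernel

set_option maxRecDepth 100000 in
lemma inner25 : ∀ p ∈ L25, ∀ x y : Fin 5, p.2.testBit x = true → p.2.testBit y = true → x ≠ y →
    p.1.testBit x = false → p.1.testBit y ≠ (K5.getD x 0).testBit y := by
  decide +kernel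

/-- The blow-ups of the class of 25 concepts over 5 points. -/
lemma low_blow {m : ℕ} (hm : 1 ≤ m) : 25 * m ^ 2 + 5 * (m * (m - 1) / 2) ≤ MNC (5 * m) 2 := by
  have hlen : L25.length = 25 := by decide +kernel
  have hget : ∀ i : Fin 25, i.1 < L25.length := fun i => by rw [hlen]; exact i.2
  have g1 : ∀ i j : Fin 25, i ≠ j →
      ∃ x ∈ (univ.filter fun x : Fin 5 => (L25[i.1]'(hget i)).2.testBit x = true) ∪
        (univ.filter fun x : Fin 5 => (L25[j.1]'(hget j)).2.testBit x = true),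
        (L25[i.1]'(hget i)).1.testBit x ≠ (L25[j.1]'(hget j)).1.testBit x := by
    have key : ∀ i j : Fin 25, i < j → ∃ x : Fin 5,
        ((L25[i.1]'(hget i)).2.testBit x = true ∨ (L25[j.1]'(hget j)).2.testBit x = true) ∧
        (L25[i.1]'(hget i)).1.testBit x ≠ (L25[j.1]'(hget j)).1.testBit x := by
      intro i j hij
      have h := (List.pairwise_iff_getElem.1 good25.1) i.1 j.1 (hget i) (hget j) hij
      rw [List.any_eq_true] at h
      obtain ⟨x, -, hx⟩ := h
      refine ⟨x, ?_⟩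
      simpa using hx
    intro i j hij
    rcases lt_or_gt_of_ne hij with h | h
    · obtain ⟨x, h1, h2⟩ := key i j h
      exact ⟨x, by simpa using h1, h2⟩
    · obtain ⟨x, h1, h2⟩ := key j i h
      exact ⟨x, by simpa using h1.symm, h2.symm⟩
  have g2 : ∀ i : Fin 25,
      (univ.filter fun x : Fin 5 => (L25[i.1]'(hget i)).2.testBit x = true).card = 2 :=
    fun i => pair25 _ (List.getElem_mem _)
  have g3 : ∀ (i : Fin 25) (x y : Fin 5),
      x ∈ (univ.filter fun x : Fin 5 => (L25[i.1]'(hget i)).2.testBit x = true) →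
      y ∈ (univ.filter fun x : Fin 5 => (L25[i.1]'(hget i)).2.testBit x = true) → x ≠ y →
      (L25[i.1]'(hget i)).1.testBit x = false →
      (L25[i.1]'(hget i)).1.testBit y ≠ (K5.getD x 0).testBit y := by
    intro i x y hx hy hxy hcx
    simp only [mem_filter, mem_univ, true_and] at hx hy
    exact inner25 _ (List.getElem_mem _) x y hx hy hxy hcx
  obtain ⟨k, hk, h⟩ := fam_blowup_two m _ _ (fun x y : Fin 5 => (K5.getD x 0).testBit y) g1 g2 g3
  have := le_MNC (n := 5 * m) (d := 2) (by omega) (h.congr finProdFinEquiv)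
  rw [Fintype.card_fin, hk, Fintype.card_fin, Fintype.card_fin] at this
  exact this

lemma low_blow_real {m : ℕ} (hm : 1 ≤ m) :
    25 * (m : ℝ) ^ 2 + 5 * (m * (m - 1) / 2) ≤ MNC (5 * m) 2 := by
  have h1 := low_blow hm
  have h2 : 2 * (m * (m - 1) / 2) = m * (m - 1) :=
    Nat.mul_div_cancel' (even_iff_two_dvd.1 (Nat.even_mul_pred_self m))
  have h3 : ((m - 1 : ℕ) : ℝ) = (m : ℝ) - 1 := by
    rw [Nat.cast_sub hm, Nat.cast_one]
  have h4 : 2 * ((m * (m - 1) / 2 : ℕ) : ℝ) = (m : ℝ) * (m - 1) := by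
    rw [← h3]
    exact_mod_cast h2
  have h5 : 25 * (m : ℝ) ^ 2 + 5 * ((m * (m - 1) / 2 : ℕ) : ℝ) ≤ MNC (5 * m) 2 := by
    exact_mod_cast h1
  linarith

/-- A lower bound for the constant. -/
lemma const_low {c : ℝ} (h : ∀ n : ℕ, 3 ≤ n → (MNC n 2 : ℝ) ≤ c * ((n : ℝ) ^ 2 / 2)) :
    11 / 5 ≤ c := by
  by_contra hcon
  push Not at hcon
  have hε : 0 < 11 / 5 - c := by linarith
  obtain ⟨m, hm⟩ := exists_nat_gt (1 / (5 * (11 / 5 - c)))
  have hm0 : (0 : ℝ) < m := lt_trans (by positivity) hm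
  have hm1 : 1 ≤ m := by
    have : 0 < m := by exact_mod_cast hm0
    omega
  have h1 := low_blow_real hm1
  have h2 := h (5 * m) (by omega)
  push_cast at h2
  rw [div_lt_iff₀ (by positivity)] at hm
  nlinarith [h1.trans h2]

lemma up5 : MNC 5 2 ≤ 25 := by
  by_contra hcon
  push Not at hcon
  obtain ⟨k, hk, h⟩ := exists_fam 5 2
  have h26 : Fam (Fin 5) (Fin 26) 2 :=
    h.comp (Fin.castLE (by omega)) (Fin.castLE_injective _)
  obtain ⟨c, t0, hc0, ht0⟩ := h26
  have hex : ∀ i, ∃ s : Finset (Fin 5), t0 i ⊆ s ∧ s.card = 2 := by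
    intro i
    obtain ⟨s, h1, h2⟩ := Finset.exists_superset_card_eq (ht0 i) (by simp)
    exact ⟨s, h1, h2⟩
  choose t ht htd using hex
  refine Pool.Agent.R817.NCCheck.no_fam c t ?_ htd
  intro i j hij
  obtain ⟨x, hx, hne⟩ := hc0 i j hij
  refine ⟨x, ?_, hne⟩
  rw [mem_union] at hx ⊢
  exact hx.imp (fun h => ht i h) (fun h => ht j h)

lemma step_core {n M M' A B : ℤ} (hn : 5 ≤ n) (hM : M ≤ A) (hs : M' * (n - 1) ≤ (n + 1) * M)
    (hAB : (n + 1) * A < (B + 1) * (n - 1)) : M' ≤ B := by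
  by_contra hcon
  push Not at hcon
  have h1 : (n + 1) * M ≤ (n + 1) * A := mul_le_mul_of_nonneg_left hM (by linarith)
  have h2 : (B + 1) * (n - 1) ≤ M' * (n - 1) :=
    mul_le_mul_of_nonneg_right (by linarith) (by linarith)
  linarith

lemma step_arith {n M M' : ℤ} (hn : 5 ≤ n) (h : 6 * M ≤ n * (7 * n - 5))
    (hs : M' * (n - 1) ≤ (n + 1) * M) : 6 * M' ≤ (n + 1) * (7 * (n + 1) - 5) := by
  obtain ⟨a, ha⟩ : ∃ a, n = 6 * a ∨ n = 6 * a + 1 ∨ n = 6 * a + 2 ∨ n = 6 * a + 3 ∨
      n = 6 * a + 4 ∨ n = 6 * a + 5 := ⟨n / 6, by omega⟩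
  obtain ⟨s, hs2⟩ : ∃ s, s = a * a := ⟨_, rfl⟩
  rcases ha with rfl | rfl | rfl | rfl | rfl | rfl
  · have e : 6 * M ≤ 252 * s - 30 * a := by rw [hs2]; linarith
    have hM : M ≤ 42 * s - 5 * a := by omega
    have := step_core (B := 42 * s + 9 * a) hn hM hs (by rw [hs2]; nlinarith)
    rw [hs2] at this
    linarith
  · have e : 6 * M ≤ 252 * s + 54 * a + 2 := by rw [hs2]; linarith
    have hM : M ≤ 42 * s + 9 * a := by omega
    have := step_core (B := 42 * s + 23 * a + 3) hn hM hs (by rw [hs2]; nlinarith)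
    rw [hs2] at this
    linarith
  · have e : 6 * M ≤ 252 * s + 138 * a + 18 := by rw [hs2]; linarith
    have hM : M ≤ 42 * s + 23 * a + 3 := by omega
    have := step_core (B := 42 * s + 37 * a + 8) hn hM hs (by rw [hs2]; nlinarith)
    rw [hs2] at this
    linarith
  · have e : 6 * M ≤ 252 * s + 222 * a + 48 := by rw [hs2]; linarith
    have hM : M ≤ 42 * s + 37 * a + 8 := by omega
    have := step_core (B := 42 * s + 51 * a + 15) hn hM hs (by rw [hs2]; nlinarith)
    rw [hs2] at this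
    linarith
  · have e : 6 * M ≤ 252 * s + 306 * a + 92 := by rw [hs2]; linarith
    have hM : M ≤ 42 * s + 51 * a + 15 := by omega
    have := step_core (B := 42 * s + 65 * a + 25) hn hM hs (by rw [hs2]; nlinarith)
    rw [hs2] at this
    linarith
  · have e : 6 * M ≤ 252 * s + 390 * a + 150 := by rw [hs2]; linarith
    have hM : M ≤ 42 * s + 65 * a + 25 := by omega
    have := step_core (B := 42 * s + 79 * a + 37) hn hM hs (by rw [hs2]; nlinarith)
    rw [hs2] at this
    linarith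

/-- The upper bound. -/
lemma upper {n : ℕ} (hn : 5 ≤ n) : (6 : ℤ) * MNC n 2 ≤ n * (7 * n - 5) := by
  induction n, hn using Nat.le_induction with
  | base =>
    have := up5
    norm_num
    omega
  | succ k hk ih =>
    have h1 := MNC_step (n := k) (d := 2) (by omega) (by omega)
    have h2 : (MNC (k + 1) 2 : ℤ) * ((k : ℤ) - 1) ≤ (k + 1) * MNC k 2 := by
      have h3 : ((k + 1 - 2 : ℕ) : ℤ) = (k : ℤ) - 1 := by omega
      rw [← h3]
      exact_mod_cast h1
    have h4 := step_arith (n := k) (M := MNC k 2) (M' := MNC (k + 1) 2) (by exact_mod_cast hk) ih h2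
    push_cast
    exact h4

lemma upper_nat {n : ℕ} (hn : 5 ≤ n) : MNC n 2 ≤ n * (7 * n - 5) / 6 := by
  rw [Nat.le_div_iff_mul_le (by norm_num)]
  have h := upper hn
  have h3 : ((7 * n - 5 : ℕ) : ℤ) = 7 * (n : ℤ) - 5 := by omega
  rw [← h3] at h
  have h4 : 6 * MNC n 2 ≤ n * (7 * n - 5) := by exact_mod_cast h
  linarith

lemma cast_choose (n : ℕ) : (n.choose 2 : ℝ) = n * (n - 1) / 2 := by
  rw [Nat.cast_choose_two]

/-- An upper bound for the constant. -/
lemma const_up {c : ℝ} (h : ∀ n : ℕ, 3 ≤ n → c * (n * (n - 1) / 2) ≤ MNC n 2) : c ≤ 7 / 3 := by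
  by_contra hcon
  push Not at hcon
  have hε : 0 < 3 * c - 7 := by linarith
  obtain ⟨m, hm⟩ := exists_nat_gt (2 / (3 * c - 7))
  rw [div_lt_iff₀ hε] at hm
  have hm0 : (0 : ℝ) ≤ m := Nat.cast_nonneg m
  have h1 := h (m + 5) (by omega)
  have h2 : (6 : ℝ) * MNC (m + 5) 2 ≤ ((m + 5 : ℕ) : ℝ) * (7 * ((m + 5 : ℕ) : ℝ) - 5) := by
    exact_mod_cast upper (n := m + 5) (by omega)
  push_cast at h1 h2
  have h3 : ((m : ℝ) + 5) * (3 * c * (m + 4)) ≤ (m + 5) * (7 * (m + 5) - 5) := by nlinarith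
  have h4 : 3 * c * (m + 4) ≤ 7 * ((m : ℝ) + 5) - 5 :=
    le_of_mul_le_mul_left h3 (by positivity)
  nlinarith

theorem result :
    -- exact values
    (MNC 3 2 = 8 ∧ MNC 4 2 = 16 ∧ MNC 5 2 = 25 ∧ MNC 6 2 = 37 ∧ MNC 7 2 = 51) ∧
    (66 ≤ MNC 8 2 ∧ MNC 8 2 ≤ 68) ∧
    -- upper and lower bounds
    (∀ n : ℕ, 5 ≤ n → MNC n 2 ≤ n * (7 * n - 5) / 6) ∧
    (∀ n : ℕ, 3 ≤ n → 11 * (n * (n - 1)) ≤ 10 * MNC n 2) ∧
    (∀ m : ℕ, 1 ≤ m → 25 * m ^ 2 + 5 * (m * (m - 1) / 2) ≤ MNC (5 * m) 2) ∧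
    -- the asymptotic constant
    (∃ c : ℝ, 11 / 5 ≤ c ∧ c ≤ 7 / 3 ∧
      (∀ n : ℕ, 3 ≤ n → c * (n * (n - 1) / 2) ≤ MNC n 2 ∧ (MNC n 2 : ℝ) ≤ c * (n ^ 2 / 2)) ∧
      Filter.Tendsto (fun n : ℕ => (MNC n 2 : ℝ) / (n.choose 2 : ℝ)) Filter.atTop (nhds c)) := by
  obtain ⟨c, h1, h2, h3, h4⟩ := exists_const 2 (by norm_num)
  have h5 : ∀ n : ℕ, 3 ≤ n →
      c * (n * (n - 1) / 2) ≤ MNC n 2 ∧ (MNC n 2 : ℝ) ≤ c * (n ^ 2 / 2) := by
    intro n hn
    have h4 := h3 n (by omega)
    have h6 : ((2 : ℕ).factorial : ℝ) = 2 := by norm_num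
    rw [cast_choose, h6] at h4
    exact h4
  have hlow : 11 / 5 ≤ c := const_low fun n hn => (h5 n hn).2
  refine ⟨?_, ⟨low8, ?_⟩, fun n => upper_nat, ?_, fun m => low_blow, ?_⟩
  · obtain ⟨h1, h2⟩ := NoClashBounds.result.2.2.2.1 2 (by norm_num)
    norm_num at h1 h2
    exact ⟨h2, h1, le_antisymm up5 low5,
      le_antisymm (by simpa using upper_nat (n := 6) (by norm_num)) low6,
      le_antisymm (by simpa using upper_nat (n := 7) (by norm_num)) low7⟩
  · simpa using upper_nat (n := 8) (by norm_num)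
  · intro n hn
    have h6 := (h5 n hn).1
    have h7 : ((n - 1 : ℕ) : ℝ) = (n : ℝ) - 1 := by
      rw [Nat.cast_sub (by omega), Nat.cast_one]
    rw [← h7] at h6
    have h8 : (0 : ℝ) ≤ (n : ℝ) * ((n - 1 : ℕ) : ℝ) := by positivity
    have h9 : (11 : ℝ) * ((n : ℝ) * ((n - 1 : ℕ) : ℝ)) ≤ 10 * MNC n 2 := by nlinarith
    exact_mod_cast h9
  · exact ⟨c, hlow, const_up fun n hn => (h5 n hn).1, h5, h4⟩

end Pool.Agent.Results.MP_4dbef5_lc.OrderTwo
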